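import Pool.Agent.Run7.h385.PQ.Stm
import Pool.Agent.H373R2.T7.Minor

/-! Piece MIN of project PQ (helper385): minor arcs for the von Mangoldt function in short intervals. -/

set_option autoImplicit false

namespace Pool.Agent.Run7.h760.PQ

open Finset
open Pool.Agent.H373R2.T7
open Pool.Agent.H807R2.Dav
open Pool.Agent.Run7.h385.PQ

theorem t_MIN : S_TII → S_MIN := by
  intro hTII U
  set A' : ℕ := U + 8 with hA'
  set A : ℕ := 2 * A' + 1 with hA
  set B : ℕ := 3 * A with hB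
  obtain ⟨n2, h2⟩ := ev_L' 10000000
  refine ⟨B, max n2 16, fun N hN S hS1 hSN q hq1 hq2 c hcop α hα => ?_⟩
  have hNn2 : n2 ≤ N := le_trans (le_max_left _ _) hN
  have hN16 : 16 ≤ N := le_trans (le_max_right _ _) hN
  have hNr : (16 : ℝ) ≤ N := by exact_mod_cast hN16
  have hN0 : (0 : ℝ) < N := by linarith
  set ℓ := Real.log N with hℓ
  have hℓ1 : 10000000 ≤ ℓ := h2 N hNn2
  have hℓ0 : 0 < ℓ := by linarith
  have hℓp : ∀ k : ℕ, 0 < ℓ ^ k := fun k => pow_pos hℓ0 k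
  have hℓone : ∀ k : ℕ, 1 ≤ ℓ ^ k := fun k => one_le_pow₀ (by linarith)
  have hS0 : (0 : ℝ) < S := lt_of_lt_of_le (by positivity) hS1
  have hSNr : (S : ℝ) ≤ N := by exact_mod_cast hSN
  have hq0 : (0 : ℝ) < q := lt_of_lt_of_le (hℓp B) hq1
  have hqn : 1 ≤ q := by exact_mod_cast hq0
  have hqr : (1 : ℝ) ≤ q := by exact_mod_cast hqn
  have hlq0 : 0 ≤ Real.log q := Real.log_nonneg hqr
  -- `q ≤ S / ℓ^B`
  have hqS : (q : ℝ) ≤ S / ℓ ^ B := by
    rw [le_div_iff₀ (hℓp B)]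
    have h3 : (q : ℝ) * ℓ ^ B * N ≤ S * N := by
      calc (q : ℝ) * ℓ ^ B * N = q * N * ℓ ^ B := by ring
        _ ≤ (S : ℝ) ^ 2 := hq2
        _ = S * S := by ring
        _ ≤ S * N := mul_le_mul_of_nonneg_left hSNr hS0.le
    exact le_of_mul_le_mul_right h3 hN0
  have hqN : (q : ℝ) ≤ N := (hqS.trans (div_le_self hS0.le (hℓone B))).trans hSNr
  have hlq : Real.log q ≤ ℓ := Real.log_le_log hq0 hqN
  have hlq2 : 1 + Real.log q ≤ 2 * ℓ := by linarith
  have hSq : (S : ℝ) / q ≤ S / ℓ ^ B := div_le_div_of_nonneg_left hS0.le (hℓp B) hq1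
  -- the cube of `S`
  have hS3 : (N : ℝ) ^ 2 * ℓ ^ (3 * B) ≤ (S : ℝ) ^ 3 := by
    have h3 := pow_le_pow_left₀ (by positivity) hS1 3
    rw [mul_pow, ← pow_mul, ← Real.rpow_natCast ((N : ℝ) ^ (2 / 3 : ℝ)) 3, ← Real.rpow_mul hN0.le] at h3
    have h4 : (2 / 3 : ℝ) * ((3 : ℕ) : ℝ) = ((2 : ℕ) : ℝ) := by norm_num
    rw [h4, Real.rpow_natCast, mul_comm B 3] at h3
    exact h3
  -- the parameter `V`
  set t : ℝ := N * ℓ ^ A / S with ht
  have ht1 : 1 ≤ t := by
    rw [ht, le_div_iff₀ hS0, one_mul]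
    calc (S : ℝ) ≤ N * 1 := by rw [mul_one]; exact hSNr
      _ ≤ N * ℓ ^ A := mul_le_mul_of_nonneg_left (hℓone A) hN0.le
  set V : ℕ := ⌈t⌉₊ with hV
  have hV1 : t ≤ V := Nat.le_ceil t
  have hV2 : (V : ℝ) ≤ 2 * t := by
    have := Nat.ceil_lt_add_one (show 0 ≤ t by linarith)
    linarith
  have hV0 : (1 : ℝ) ≤ V := ht1.trans hV1
  have hVpos : (0 : ℝ) < V := by linarith
  have hVn : 1 ≤ V := by exact_mod_cast hV0
  have hNV : (N : ℝ) / V ≤ S / ℓ ^ A := by
    rw [div_le_div_iff₀ hVpos (hℓp A)]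
    have h3 : t * S = N * ℓ ^ A := by rw [ht]; field_simp
    calc (N : ℝ) * ℓ ^ A = t * S := h3.symm
      _ ≤ V * S := mul_le_mul_of_nonneg_right hV1 hS0.le
      _ = S * V := by ring
  have hVVr : ((V * V : ℕ) : ℝ) ≤ S / ℓ ^ (2 * A') := by
    have h3 : ((V * V : ℕ) : ℝ) ≤ (2 * t) * (2 * t) := by
      push_cast
      exact mul_le_mul hV2 hV2 hVpos.le (by linarith)
    refine h3.trans ?_
    rw [ht, le_div_iff₀ (hℓp _)]
    have e3 : 2 * ((N : ℝ) * ℓ ^ A / S) * (2 * (N * ℓ ^ A / S)) * ℓ ^ (2 * A') =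
        (4 * N ^ 2 * (ℓ ^ A * ℓ ^ A * ℓ ^ (2 * A'))) / S ^ 2 := by
      field_simp; ring
    rw [e3, div_le_iff₀ (by positivity), ← pow_add, ← pow_add]
    calc 4 * (N : ℝ) ^ 2 * ℓ ^ (A + A + 2 * A') ≤ ℓ * N ^ 2 * ℓ ^ (A + A + 2 * A') := by
          gcongr; linarith
      _ = N ^ 2 * ℓ ^ (A + A + 2 * A' + 1) := by rw [pow_succ]; ring
      _ ≤ N ^ 2 * ℓ ^ (3 * B) := by
          apply mul_le_mul_of_nonneg_left _ (by positivity)
          exact pow_le_pow_right₀ (by linarith) (by omega)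
      _ ≤ S ^ 3 := hS3
      _ = S * S ^ 2 := by ring
  have hVVS : ((V * V : ℕ) : ℝ) ≤ S := hVVr.trans (div_le_self hS0.le (hℓone _))
  have hVVSn : V * V ≤ S := by exact_mod_cast hVVS
  have hVVN : V * V ≤ N := hVVSn.trans hSN
  have hlog4 : Real.log 4 ≤ 2 := by
    have h1 : Real.log 4 = 2 * Real.log 2 := by
      rw [show (4 : ℝ) = 2 ^ 2 by norm_num, Real.log_pow]; push_cast; ring
    have := Real.log_two_lt_d9
    linarith
  have hVlog : (Nat.log 2 (V * V) + 1 : ℝ) ≤ 2 * ℓ := by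
    have h3 : (Nat.log 2 (V * V) : ℝ) * Real.log 2 ≤ ℓ := by
      have h4 : (2 : ℝ) ^ Nat.log 2 (V * V) ≤ ((V * V : ℕ) : ℝ) := by
        exact_mod_cast Nat.pow_log_le_self 2 (by positivity)
      have h5 : ((V * V : ℕ) : ℝ) ≤ N := by exact_mod_cast hVVN
      have h7 := Real.log_le_log (by positivity) (h4.trans h5)
      rwa [Real.log_pow] at h7
    have h4 := Real.log_two_gt_d9
    have h5 : (0 : ℝ) ≤ Nat.log 2 (V * V) := Nat.cast_nonneg _
    nlinarith
  set R : ℝ := 41 * (S / ℓ ^ A') with hR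
  have hR0 : 0 ≤ R := by positivity
  have key := vaughan_gen (fun n => ee ((n : ℝ) * α)) N (N + S) V (by omega) (by omega) (by omega) hVn hVVN
    (fun m => KK (2 * S / m) (m * α)) R hR0 (fun m => KK_nonneg (by positivity) _) (by
      intro m hm b hb
      rw [mem_Icc] at hm
      have hm0 : (0 : ℝ) < m := by exact_mod_cast (by omega : 0 < m)
      have e1 : ∀ l ∈ Ioc (N / m) b, ee (((m * l : ℕ) : ℝ) * α) = ee ((l : ℝ) * (m * α)) := by
        intro l _; congr 1; push_cast; ring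
      rw [sum_congr rfl e1]
      have e2 : Ioc (N / m) b = Ico (N / m + 1) (b + 1) := by ext x; rw [mem_Ioc, mem_Ico]; omega
      rw [e2]
      rcases le_or_gt (N / m + 1) (b + 1) with h | h
      · apply geo_bound _ _ h
        push_cast
        have g2 : (b : ℝ) ≤ (((N + S) / m : ℕ) : ℝ) := by exact_mod_cast hb
        have g3 : (((N + S) / m : ℕ) : ℝ) ≤ ((N + S : ℕ) : ℝ) / m := Nat.cast_div_le
        have g4 : (N : ℝ) / m < ((N / m : ℕ) : ℝ) + 1 := by
          rw [div_lt_iff₀ hm0]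
          have := Nat.lt_div_mul_add (a := N) (show 0 < m by omega)
          have h5 : N < (N / m + 1) * m := by rw [add_mul, one_mul]; exact this
          exact_mod_cast h5
        have g5 : 1 ≤ (S : ℝ) / m := by
          rw [le_div_iff₀ hm0, one_mul]
          exact_mod_cast hm.2.trans hVVSn
        have g6 : ((N + S : ℕ) : ℝ) / m = N / m + S / m := by push_cast; rw [add_div]
        have g7 : 2 * (S : ℝ) / m = S / m + S / m := by ring
        rw [g7]
        linarith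
      · rw [Ico_eq_empty_of_le h.le, sum_empty, norm_zero]
        exact KK_nonneg (by positivity) _) (by
      intro a b A₂ B₂ hA0 hB0 M L hM hL hM2 hL2 hML hAs hBs
      have h1 := hTII q hqn c hcop α hα N S M L hM hL a b
      refine h1.trans ?_
      have hM0 : (0 : ℝ) < M := by exact_mod_cast hM
      have hL0 : (0 : ℝ) < L := by exact_mod_cast hL
      have hMLr : (M : ℝ) * L ≤ 2 * N := by exact_mod_cast hML.trans (by omega)
      have hM4 : (M : ℝ) ≤ 4 * (N / V) := by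
        rw [mul_div_assoc', le_div_iff₀ hVpos]
        have : (V : ℝ) ≤ 2 * L := by exact_mod_cast hL2.le
        nlinarith
      have hL4 : (L : ℝ) ≤ 4 * (N / V) := by
        rw [mul_div_assoc', le_div_iff₀ hVpos]
        have : (V : ℝ) ≤ 2 * M := by exact_mod_cast hM2.le
        nlinarith
      have hM5 : (M : ℝ) ≤ 4 * (S / ℓ ^ A) := by linarith
      have hL5 : (L : ℝ) ≤ 4 * (S / ℓ ^ A) := by linarith
      have hA4 : 4 ≤ ℓ ^ A := by
        calc (4 : ℝ) ≤ ℓ := by linarith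
          _ = ℓ ^ 1 := (pow_one _).symm
          _ ≤ ℓ ^ A := pow_le_pow_right₀ (by linarith) (by omega)
      have hSA : S / ℓ ^ A ≤ (S : ℝ) / 4 := div_le_div_of_nonneg_left hS0.le (by norm_num) hA4
      have hLS : (L : ℝ) ≤ S := by linarith
      have hBA : (S : ℝ) / ℓ ^ B ≤ S / ℓ ^ A := div_le_div_of_nonneg_left hS0.le (hℓp A) (pow_le_pow_right₀ (by linarith) (by omega))
      have hSq' : (S : ℝ) / q ≤ S / ℓ ^ A := hSq.trans hBA
      have hlq1 : 1 ≤ 1 + Real.log q := by linarith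
      have hqN2 : (q : ℝ) * N ≤ S * (S / ℓ ^ A) := by
        have h5 : (q : ℝ) * N ≤ S ^ 2 / ℓ ^ B := by rw [le_div_iff₀ (hℓp B)]; exact hq2
        calc (q : ℝ) * N ≤ S ^ 2 / ℓ ^ B := h5
          _ = S * (S / ℓ ^ B) := by ring
          _ ≤ _ := mul_le_mul_of_nonneg_left hBA hS0.le
      set Z : ℝ := S / ℓ ^ A with hZ
      have hZ0 : 0 ≤ Z := by positivity
      set lq : ℝ := 1 + Real.log q with hlqdef
      have c1 : (2 * (S : ℝ) / q) * (39 * (S + L)) ≤ 156 * (lq * (S * Z)) := by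
        have d1 : (2 * (S : ℝ) / q) = 2 * (S / q) := by ring
        rw [d1]
        calc 2 * ((S : ℝ) / q) * (39 * (S + L)) ≤ 2 * Z * (39 * (S + S)) := by gcongr
          _ = 156 * (1 * (S * Z)) := by ring
          _ ≤ 156 * (lq * (S * Z)) := by gcongr
      have c2 : (2 * (S : ℝ) / q) * (3 * q * L * lq) ≤ 24 * (lq * (S * Z)) := by
        have d1 : (2 * (S : ℝ) / q) * (3 * q * L * lq) = 6 * (S * L * lq) := by field_simp; ring
        rw [d1]
        calc 6 * ((S : ℝ) * L * lq) ≤ 6 * (S * (4 * Z) * lq) := by gcongr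
          _ = _ := by ring
      have c3 : (2 * (M : ℝ)) * (39 * (S + L)) ≤ 624 * (lq * (S * Z)) := by
        calc (2 * (M : ℝ)) * (39 * (S + L)) ≤ (2 * (4 * Z)) * (39 * (S + S)) := by gcongr
          _ = 624 * (1 * (S * Z)) := by ring
          _ ≤ 624 * (lq * (S * Z)) := by gcongr
      have c4 : (2 * (M : ℝ)) * (3 * q * L * lq) ≤ 12 * (lq * (S * Z)) := by
        calc (2 * (M : ℝ)) * (3 * q * L * lq) = 6 * (q * (M * L)) * lq := by ring
          _ ≤ 6 * (q * (2 * N)) * lq := by gcongr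
          _ = 12 * (lq * (q * N)) := by ring
          _ ≤ _ := by gcongr
      have c5 : (S : ℝ) * Z * ℓ = (S / ℓ ^ A') ^ 2 := by
        rw [hZ, hA, div_pow, ← pow_mul, pow_succ, mul_comm A' 2]; field_simp
      calc (∑ m ∈ Ioc M (2 * M), ‖a m‖ ^ 2) * ((∑ l ∈ Ioc L (2 * L), ‖b l‖ ^ 2) *
            ((2 * (S : ℝ) / (M * q) + 2) * (39 * ((S : ℝ) / L + 1) + 3 * q * lq)))
          ≤ (A₂ * M) * ((B₂ * L) * ((2 * (S : ℝ) / (M * q) + 2) * (39 * ((S : ℝ) / L + 1) + 3 * q * lq))) := by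
            gcongr
        _ = A₂ * B₂ * ((2 * (S : ℝ) / q) * (39 * (S + L)) + (2 * (S : ℝ) / q) * (3 * q * L * lq) +
              (2 * (M : ℝ)) * (39 * (S + L)) + (2 * (M : ℝ)) * (3 * q * L * lq)) := by
            field_simp; ring
        _ ≤ A₂ * B₂ * (816 * (lq * (S * Z))) := by
            apply mul_le_mul_of_nonneg_left _ (by positivity)
            linarith
        _ ≤ A₂ * B₂ * (816 * ((2 * ℓ) * (S * Z))) := by gcongr
        _ = A₂ * B₂ * (1632 * (S * Z * ℓ)) := by ring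
        _ ≤ A₂ * B₂ * R ^ 2 := by
            apply mul_le_mul_of_nonneg_left _ (by positivity)
            rw [c5, hR, mul_pow]
            have : 0 ≤ ((S : ℝ) / ℓ ^ A') ^ 2 := by positivity
            nlinarith)
  refine key.trans ?_
  have hLg : 1 + Real.log (4 * (N : ℝ)) ≤ 2 * ℓ := by
    rw [Real.log_mul (by norm_num) (by linarith)]
    linarith
  have hLg0 : 0 ≤ 1 + Real.log (4 * (N : ℝ)) := by
    have := Real.log_nonneg (show (1 : ℝ) ≤ 4 * N by linarith)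
    linarith
  have hSn : 1 ≤ S := by exact_mod_cast hS0
  have hI := typeI_lin hqn hcop hα S (V * V) hSn (Nat.mul_pos hVn hVn)
  have hUS : (S : ℝ) / ℓ ^ A' = S / ℓ ^ U / ℓ ^ 8 := by
    rw [hA', pow_add, div_div]
  have hBU : (S : ℝ) / ℓ ^ B ≤ S / ℓ ^ (2 * A') :=
    div_le_div_of_nonneg_left hS0.le (hℓp _) (pow_le_pow_right₀ (by linarith) (by omega))
  have hqS' : (q : ℝ) ≤ S / ℓ ^ (2 * A') := hqS.trans hBU
  have hSq' : (S : ℝ) / q ≤ S / ℓ ^ (2 * A') := hSq.trans hBU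
  have hW : (S : ℝ) / ℓ ^ (2 * A') ≤ S / ℓ ^ U / ℓ ^ 8 := by
    rw [← hUS]
    exact div_le_div_of_nonneg_left hS0.le (hℓp _) (pow_le_pow_right₀ (by linarith) (by omega))
  set G : ℝ := S / ℓ ^ U with hG
  have hG0 : 0 ≤ G := by positivity
  have b1 : 8 * (1 + Real.log (4 * (N : ℝ))) ^ 5 * R ≤ 1 / 2 * G := by
    calc 8 * (1 + Real.log (4 * (N : ℝ))) ^ 5 * R ≤ 8 * (2 * ℓ) ^ 5 * R := by gcongr
      _ = (10496 / ℓ ^ 3) * G := by rw [hR, hUS]; field_simp; ring
      _ ≤ 1 / 2 * G := by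
          apply mul_le_mul_of_nonneg_right _ hG0
          rw [div_le_div_iff₀ (hℓp 3) (by norm_num)]
          have h5 : ℓ ^ 1 ≤ ℓ ^ 3 := pow_le_pow_right₀ (by linarith) (by norm_num)
          rw [pow_one] at h5
          linarith
  have b2 : 3 * (1 + Real.log (4 * (N : ℝ))) * ∑ m ∈ Icc 1 (V * V), KK (2 * S / m) (m * α) ≤ 1 / 2 * G := by
    have hs0 : 0 ≤ ∑ m ∈ Icc 1 (V * V), KK (2 * S / m) (m * α) :=
      sum_nonneg fun m _ => KK_nonneg (by positivity) _
    have hs1 : (S : ℝ) / q + ((V * V : ℕ) : ℝ) + q ≤ 3 * (G / ℓ ^ 8) := by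
      have x1 := hSq'.trans hW
      have x2 := hVVr.trans hW
      have x3 := hqS'.trans hW
      linarith
    calc 3 * (1 + Real.log (4 * (N : ℝ))) * ∑ m ∈ Icc 1 (V * V), KK (2 * S / m) (m * α)
        ≤ 3 * (2 * ℓ) * (600 * (Nat.log 2 (V * V) + 1 : ℝ) * ((S : ℝ) / q + ((V * V : ℕ) : ℝ) + q) * (1 + Real.log q)) :=
          mul_le_mul (by linarith) hI hs0 (by positivity)
      _ ≤ 3 * (2 * ℓ) * (600 * (2 * ℓ) * (3 * (G / ℓ ^ 8)) * (2 * ℓ)) := by
          apply mul_le_mul_of_nonneg_left _ (by positivity)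
          apply mul_le_mul _ hlq2 (by positivity) (by positivity)
          apply mul_le_mul _ hs1 (by positivity) (by positivity)
          apply mul_le_mul_of_nonneg_left hVlog (by norm_num)
      _ = (43200 / ℓ ^ 5) * G := by field_simp; ring
      _ ≤ 1 / 2 * G := by
          apply mul_le_mul_of_nonneg_right _ hG0
          rw [div_le_div_iff₀ (hℓp 5) (by norm_num)]
          have h5 : ℓ ^ 1 ≤ ℓ ^ 5 := pow_le_pow_right₀ (by linarith) (by norm_num)
          rw [pow_one] at h5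
          linarith
  linarith

end Pool.Agent.Run7.h760.PQ
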