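import Pool.Agent.Run7.h385.PQ.Stm
import Pool.Agent.H373R2.T7.Lin

/-! Piece TII of project PQ (helper385): bilinear sums with a linear phase over a short interval. -/

set_option autoImplicit false

namespace Pool.Agent.Run7.h760.PQ

open Finset
open Pool.Agent.H373R2.T7
open Pool.Agent.H807R2.Dav
open Pool.Agent.Run7.h385.PQ

theorem t_TII : S_TII := by
  intro q hq c hcop α hα N S M L hM hL a b
  classical
  have hq0 : (0 : ℝ) < q := by exact_mod_cast hq
  have hq1 : (1 : ℝ) ≤ q := by exact_mod_cast hq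
  have hM0 : (0 : ℝ) < M := by exact_mod_cast hM
  have hL0 : (0 : ℝ) < L := by exact_mod_cast hL
  have hlq : 0 ≤ Real.log q := Real.log_nonneg hq1
  set W : ℝ := (S : ℝ) / L + 1 with hW
  have hW0 : 0 ≤ W := by positivity
  set T : ℕ → ℂ := fun m => ∑ l ∈ Ioc L (2 * L), b l * (if N < m * l ∧ m * l ≤ N + S then ee (((m * l : ℕ) : ℝ) * α) else 0) with hT
  have e1 : ∑ m ∈ Ioc M (2 * M), ∑ l ∈ Ioc L (2 * L), a m * b l *
      (if N < m * l ∧ m * l ≤ N + S then ee (((m * l : ℕ) : ℝ) * α) else 0) = ∑ m ∈ Ioc M (2 * M), a m * T m := by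
    apply sum_congr rfl; intro m _
    rw [hT, mul_sum]
    apply sum_congr rfl; intro l _
    ring
  rw [e1]
  refine (cs_norm _ _ _).trans (mul_le_mul_of_nonneg_left ?_ (by positivity))
  -- expand the square
  have h1 : ((∑ m ∈ Ioc M (2 * M), ‖T m‖ ^ 2 : ℝ) : ℂ) =
      ∑ l ∈ Ioc L (2 * L), ∑ l' ∈ Ioc L (2 * L), (b l * (starRingEnd ℂ) (b l')) *
        ∑ m ∈ (Ioc M (2 * M)).filter (fun m => (N < m * l ∧ m * l ≤ N + S) ∧ (N < m * l' ∧ m * l' ≤ N + S)),
          ee ((m : ℝ) * (((l : ℝ) - l') * α)) := by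
    push_cast
    have h2 : ∀ m ∈ Ioc M (2 * M), ((‖T m‖ : ℂ)) ^ 2 = ∑ l ∈ Ioc L (2 * L), ∑ l' ∈ Ioc L (2 * L),
        (b l * (starRingEnd ℂ) (b l')) * (if (N < m * l ∧ m * l ≤ N + S) ∧ (N < m * l' ∧ m * l' ≤ N + S) then
          ee ((m : ℝ) * (((l : ℝ) - l') * α)) else 0) := by
      intro m _
      rw [← Complex.mul_conj', hT]
      simp only
      rw [map_sum, sum_mul_sum]
      apply sum_congr rfl; intro l _
      apply sum_congr rfl; intro l' _
      rw [map_mul]
      by_cases g1 : N < m * l ∧ m * l ≤ N + S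
      · by_cases g2 : N < m * l' ∧ m * l' ≤ N + S
        · rw [if_pos g1, if_pos g2, if_pos ⟨g1, g2⟩, ee_conj']
          have : ee ((m : ℝ) * (((l : ℝ) - l') * α)) = ee (((m * l : ℕ) : ℝ) * α) * ee (-(((m * l' : ℕ) : ℝ) * α)) := by
            rw [← ee_add]; congr 1; push_cast; ring
          rw [this]; ring
        · rw [if_neg g2, if_neg (show ¬ ((N < m * l ∧ m * l ≤ N + S) ∧ (N < m * l' ∧ m * l' ≤ N + S)) from fun h => g2 h.2)]; simp
      · rw [if_neg g1, if_neg (show ¬ ((N < m * l ∧ m * l ≤ N + S) ∧ (N < m * l' ∧ m * l' ≤ N + S)) from fun h => g1 h.1)]; simp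
    rw [sum_congr rfl h2, sum_comm]
    apply sum_congr rfl; intro l _
    rw [sum_comm]
    apply sum_congr rfl; intro l' _
    rw [← mul_sum, sum_filter]
  set K : ℕ → ℕ → ℝ := fun l l' => if M * ((l : ℤ) - l').natAbs < S then KK W (((l : ℝ) - l') * α) else 0 with hKdef
  have hKnn : ∀ l l', 0 ≤ K l l' := by
    intro l l'; simp only [hKdef]; split_ifs
    · exact KK_nonneg hW0 _
    · exact le_rfl
  have hK : ∀ l ∈ Ioc L (2 * L), ∀ l' ∈ Ioc L (2 * L),
      ‖∑ m ∈ (Ioc M (2 * M)).filter (fun m => (N < m * l ∧ m * l ≤ N + S) ∧ (N < m * l' ∧ m * l' ≤ N + S)),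
          ee ((m : ℝ) * (((l : ℝ) - l') * α))‖ ≤ K l l' := by
    intro l hl l' hl'
    rw [mem_Ioc] at hl hl'
    have hl0 : 0 < l := by omega
    have hl0' : 0 < l' := by omega
    by_cases hP : M * ((l : ℤ) - l').natAbs < S
    · simp only [hKdef, if_pos hP]
      set lo := max M (max (N / l) (N / l')) with hlo
      set hi := min (2 * M) (min ((N + S) / l) ((N + S) / l')) with hhi
      have hset : (Ioc M (2 * M)).filter (fun m => (N < m * l ∧ m * l ≤ N + S) ∧ (N < m * l' ∧ m * l' ≤ N + S)) =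
          Ico (lo + 1) (hi + 1) := by
        ext m
        rw [mem_filter, mem_Ioc, mem_Ico]
        have g1 : N < m * l ↔ N / l < m := (Nat.div_lt_iff_lt_mul hl0).symm
        have g2 : m * l ≤ N + S ↔ m ≤ (N + S) / l := (Nat.le_div_iff_mul_le hl0).symm
        have g3 : N < m * l' ↔ N / l' < m := (Nat.div_lt_iff_lt_mul hl0').symm
        have g4 : m * l' ≤ N + S ↔ m ≤ (N + S) / l' := (Nat.le_div_iff_mul_le hl0').symm
        rw [g1, g2, g3, g4]
        omega
      rw [hset]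
      rcases le_or_gt (lo + 1) (hi + 1) with h | h
      · apply geo_bound _ _ h
        have g1 : N / l ≤ lo := (le_max_left _ _).trans (le_max_right _ _)
        have g2 : hi ≤ (N + S) / l := (min_le_right _ _).trans (min_le_left _ _)
        have g1r : ((N / l : ℕ) : ℝ) ≤ lo := by exact_mod_cast g1
        have g2r : (hi : ℝ) ≤ (((N + S) / l : ℕ) : ℝ) := by exact_mod_cast g2
        have hl0r : (0 : ℝ) < l := by exact_mod_cast hl0
        have g3 : (((N + S) / l : ℕ) : ℝ) ≤ ((N + S : ℕ) : ℝ) / l := Nat.cast_div_le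
        have g4 : (N : ℝ) / l < ((N / l : ℕ) : ℝ) + 1 := by
          rw [div_lt_iff₀ hl0r]
          have := Nat.lt_div_mul_add (a := N) hl0
          have h5 : N < (N / l + 1) * l := by rw [add_mul, one_mul]; exact this
          exact_mod_cast h5
        have g5 : (S : ℝ) / l ≤ S / L := by
          apply div_le_div_of_nonneg_left (Nat.cast_nonneg _) hL0
          exact_mod_cast hl.1.le
        have g6 : ((N + S : ℕ) : ℝ) / l = N / l + S / l := by push_cast; rw [add_div]
        push_cast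
        rw [hW]
        linarith
      · rw [Ico_eq_empty_of_le h.le, sum_empty, norm_zero]
        exact KK_nonneg hW0 _
    · have hemp : (Ioc M (2 * M)).filter (fun m => (N < m * l ∧ m * l ≤ N + S) ∧ (N < m * l' ∧ m * l' ≤ N + S)) = ∅ := by
        rw [filter_eq_empty_iff]
        intro m hm hh
        rw [mem_Ioc] at hm
        apply hP
        obtain ⟨⟨a1, a2⟩, a3, a4⟩ := hh
        have b1 : m * ((l : ℤ) - l').natAbs < S := by
          rcases le_total l l' with hll | hll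
          · have : ((l : ℤ) - l').natAbs = l' - l := by omega
            rw [this, Nat.mul_sub]
            omega
          · have : ((l : ℤ) - l').natAbs = l - l' := by omega
            rw [this, Nat.mul_sub]
            omega
        exact lt_of_le_of_lt (Nat.mul_le_mul_right _ hm.1.le) b1
      rw [hemp, sum_empty, norm_zero]
      exact hKnn _ _
  have hKsymm : ∀ l l', K l l' = K l' l := by
    intro l l'
    simp only [hKdef]
    have h3 : ((l : ℤ) - l').natAbs = ((l' : ℤ) - l).natAbs := by omega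
    rw [h3]
    congr 1
    rw [← KK_neg]; congr 1; ring
  have h2 : ∑ m ∈ Ioc M (2 * M), ‖T m‖ ^ 2 ≤
      ∑ l ∈ Ioc L (2 * L), ∑ l' ∈ Ioc L (2 * L), (‖b l‖ ^ 2 + ‖b l'‖ ^ 2) / 2 * K l l' := by
    have h3 : (∑ m ∈ Ioc M (2 * M), ‖T m‖ ^ 2) = ‖((∑ m ∈ Ioc M (2 * M), ‖T m‖ ^ 2 : ℝ) : ℂ)‖ := by
      rw [Complex.norm_real, Real.norm_of_nonneg (by positivity)]
    rw [h3, h1]
    refine (norm_sum_le _ _).trans (sum_le_sum fun l hl => ?_)
    refine (norm_sum_le _ _).trans (sum_le_sum fun l' hl' => ?_)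
    rw [norm_mul, norm_mul, RCLike.norm_conj]
    apply mul_le_mul _ (hK l hl l' hl') (norm_nonneg _) (by positivity)
    nlinarith [sq_nonneg (‖b l‖ - ‖b l'‖)]
  refine h2.trans ?_
  have h4 : ∑ l ∈ Ioc L (2 * L), ∑ l' ∈ Ioc L (2 * L), (‖b l‖ ^ 2 + ‖b l'‖ ^ 2) / 2 * K l l' =
      ∑ l ∈ Ioc L (2 * L), ‖b l‖ ^ 2 * ∑ l' ∈ Ioc L (2 * L), K l l' := by
    have e2 : ∀ l l' : ℕ, (‖b l‖ ^ 2 + ‖b l'‖ ^ 2) / 2 * K l l' =
        1 / 2 * (‖b l‖ ^ 2 * K l l') + 1 / 2 * (‖b l'‖ ^ 2 * K l l') := by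
      intro l l'; ring
    simp_rw [e2, sum_add_distrib]
    have e3 : ∑ l ∈ Ioc L (2 * L), ∑ l' ∈ Ioc L (2 * L), 1 / 2 * (‖b l'‖ ^ 2 * K l l') =
        ∑ l ∈ Ioc L (2 * L), ∑ l' ∈ Ioc L (2 * L), 1 / 2 * (‖b l‖ ^ 2 * K l l') := by
      rw [sum_comm]
      apply sum_congr rfl; intro l _
      apply sum_congr rfl; intro l' _
      rw [hKsymm]
    rw [e3, ← sum_add_distrib]
    apply sum_congr rfl; intro l _
    rw [← sum_add_distrib, mul_sum]
    apply sum_congr rfl; intro l' _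
    ring
  rw [h4, sum_mul]
  apply sum_le_sum
  intro l hl
  rw [mem_Ioc] at hl
  apply mul_le_mul_of_nonneg_left _ (by positivity)
  set D : ℕ := S / M with hD
  have hF : ∀ l' ∈ (Ioc L (2 * L)).filter (fun l' : ℕ => M * ((l : ℤ) - l').natAbs < S), l ≤ l' + D ∧ l' ≤ l + D := by
    intro l' hl'
    rw [mem_filter] at hl'
    have h5 : ((l : ℤ) - l').natAbs ≤ D := by
      rw [hD, Nat.le_div_iff_mul_le (by omega), Nat.mul_comm]
      exact hl'.2.le
    omega
  have h5 : ∑ l' ∈ Ioc L (2 * L), K l l' ≤ ∑ j ∈ range (2 * D + 1), KK W (-(D : ℝ) * α + j * α) := by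
    have e4 : ∑ l' ∈ Ioc L (2 * L), K l l' =
        ∑ l' ∈ (Ioc L (2 * L)).filter (fun l' : ℕ => M * ((l : ℤ) - l').natAbs < S), KK W (((l : ℝ) - l') * α) := by
      rw [sum_filter]
    rw [e4]
    have e5 : ∑ l' ∈ (Ioc L (2 * L)).filter (fun l' : ℕ => M * ((l : ℤ) - l').natAbs < S), KK W (((l : ℝ) - l') * α) =
        ∑ j ∈ ((Ioc L (2 * L)).filter (fun l' : ℕ => M * ((l : ℤ) - l').natAbs < S)).image (fun l' => l' + D - l),
          KK W (-(D : ℝ) * α + j * α) := by
      rw [sum_image]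
      · apply sum_congr rfl
        intro l' hl'
        have h6 := hF l' hl'
        rw [← KK_neg]
        congr 1
        rw [Nat.cast_sub h6.1]
        push_cast; ring
      · intro x hx y hy hxy
        have h6 := hF x hx
        have h7 := hF y hy
        simp only at hxy
        omega
    rw [e5]
    apply sum_le_sum_of_subset_of_nonneg
    · intro j hj
      rw [mem_image] at hj
      obtain ⟨l', hl', rfl⟩ := hj
      have h6 := hF l' hl'
      rw [mem_range]
      omega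
    · intro j _ _
      exact KK_nonneg hW0 _
  refine h5.trans ((vino hq hcop hα hW0 _ _).trans ?_)
  apply mul_le_mul_of_nonneg_right _ (by positivity)
  have h6 : (D : ℝ) ≤ S / M := Nat.cast_div_le
  have h7 : ((2 * D + 1 : ℕ) : ℝ) / q ≤ 2 * (S : ℝ) / (M * q) + 1 / q := by
    have e6 : 2 * (S : ℝ) / (M * q) + 1 / q = (2 * (S / M) + 1) / q := by
      field_simp
    rw [e6]
    apply div_le_div_of_nonneg_right _ hq0.le
    push_cast
    linarith
  have h8 : 1 / (q : ℝ) ≤ 1 := by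
    rw [div_le_one hq0]; exact hq1
  linarith

end Pool.Agent.Run7.h760.PQ
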